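import Pool.Agent.Y386.IR.Stm3

/-!
# Job IR-HOM: the homomorphism of the subdivided graph given by a colouring
-/

set_option autoImplicit false

namespace Pool.Agent.Y286.IR

open Pool.Agent.NPC Pool.Agent.H692R2 Pool.Agent.Y386.IR

theorem t_HOM : S_WALK → S_HOM := by
  intro hW k E hk hcol
  obtain ⟨c, hc⟩ := hcol
  have hw : ∀ a b : Fin (2 * k + 1), ∃ w : ℕ → ℕ, (∀ j, w j < 2 * k + 1) ∧
      (a ≠ b → w 0 = a ∧ w (2 * k - 1) = b ∧
        ∀ j, j < 2 * k - 1 → CA (2 * k + 1) k (w j) (w (j + 1))) := by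
    intro a b
    by_cases hab : a = b
    · exact ⟨fun _ => 0, fun _ => Nat.succ_pos _, fun h => absurd hab h⟩
    · obtain ⟨w, h1, h2, h3, h4⟩ := (hW k hk).1 a b a.2 b.2 (fun h => hab (Fin.ext h))
      exact ⟨w, h3, fun _ => ⟨h1, h2, h4⟩⟩
  choose w hw1 hw2 using hw
  set φ : Lab → ℕ := fun x => if x.1 = 0 then (c x.2 : ℕ) else
    (match E[x.2]? with
      | some e => w (c e.1) (c e.2) x.1
      | none => 0) with hφ
  have key : ∀ (i : ℕ) (e : ℕ × ℕ) (j : ℕ), E[i]? = some e → j ≤ 2 * k - 1 →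
      φ (pv (2 * k - 1) e i j) = w (c e.1) (c e.2) j := by
    intro i e j he hj
    have hne : c e.1 ≠ c e.2 := hc e (List.mem_of_getElem? he)
    obtain ⟨h0, hL, _⟩ := hw2 _ _ hne
    unfold pv
    by_cases hj0 : j = 0
    · subst hj0
      rw [if_pos rfl, h0]
      simp [hφ]
    · rw [if_neg hj0]
      by_cases hjL : j = 2 * k - 1
      · rw [if_pos hjL, hjL, hL]
        simp [hφ]
      · rw [if_neg hjL]
        simp only [hφ]
        rw [if_neg hj0, he]
  have key2 : ∀ x y, (x, y) ∈ sE (2 * k - 1) E → CA (2 * k + 1) k (φ x) (φ y) := by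
    intro x y h
    obtain ⟨i, e, j, he, hj, rfl, rfl⟩ := mem_sE.1 h
    have hne : c e.1 ≠ c e.2 := hc e (List.mem_of_getElem? he)
    rw [key i e j he hj.le, key i e (j + 1) he hj]
    exact (hw2 _ _ hne).2.2 j hj
  refine ⟨φ, ?_, ?_⟩
  · intro x
    simp only [hφ]
    split_ifs with h
    · exact (c x.2).2
    · split
      · exact hw1 _ _ _
      · exact Nat.succ_pos _
  · intro x y h
    rcases h with h | h
    · exact key2 x y h
    · exact CA_symm (key2 y x h)

end Pool.Agent.Y286.IR
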